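import Pool.Agent.X184.SS.Stm2

set_option autoImplicit false

namespace Pool.Agent.X176.SP

open Finset Pool.Agent.X184.SS

theorem half_sum (I : Finset ℕ) : ∑ i ∈ I, (1 / 2 : ℝ) ^ (i + 1) ≤ 1 := by
  have h : ∀ M : ℕ, ∑ i ∈ range M, (1 / 2 : ℝ) ^ (i + 1) = 1 - (1 / 2) ^ M := by
    intro M
    induction M with
    | zero => simp
    | succ M ih => rw [sum_range_succ, ih]; ring
  have hsub : I ⊆ range (I.sup id + 1) := fun i hi =>
    mem_range.2 (Nat.lt_succ_of_le (le_sup (f := id) hi))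
  calc ∑ i ∈ I, (1 / 2 : ℝ) ^ (i + 1) ≤ ∑ i ∈ range (I.sup id + 1), (1 / 2 : ℝ) ^ (i + 1) :=
        sum_le_sum_of_subset_of_nonneg hsub fun _ _ _ => by positivity
    _ = 1 - (1 / 2) ^ (I.sup id + 1) := h _
    _ ≤ 1 := by
        have : (0 : ℝ) ≤ (1 / 2) ^ (I.sup id + 1) := by positivity
        linarith

theorem sum_sch {n : ℕ} {w : ℕ → ℝ} {ε : ℝ} (hw : ∀ F ∈ Sch n, ∑ j ∈ F, w j ≤ ε)
    {F : Finset ℕ} (hF : F ∈ Sch (n + 1)) (hε : 0 ≤ ε) {m : ℕ} (hm : m ∈ F) :
    ∑ j ∈ F, w j ≤ (m + 1) * ε := by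
  obtain ⟨k, G, h1, h2, h3, h4⟩ := hF
  have hk := h4 m hm
  rw [h3, sum_biUnion]
  · calc ∑ r : Fin k, ∑ j ∈ G r, w j ≤ ∑ _r : Fin k, ε := sum_le_sum fun r _ => hw _ (h1 r).2
      _ = k * ε := by simp
      _ ≤ (m + 1) * ε := by
          apply mul_le_mul_of_nonneg_right _ hε
          exact_mod_cast hk
  · intro i _ j _ hij
    rw [Function.onFun, disjoint_left]
    intro a ha hb
    rcases lt_or_gt_of_ne hij with h | h
    · exact absurd (h2 i j h a ha a hb) (lt_irrefl _)
    · exact absurd (h2 j i h a hb a ha) (lt_irrefl _)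

theorem t_SYS : S_SYS := by
  intro _ hJ n N hN
  have hJ' : ∀ i v : ℕ, ∃ z : ℕ → ℕ →₀ ℝ, (∀ l j, 0 ≤ z l j) ∧ (∀ l < i + 1, ∑ j ∈ (z l).support, z l j = 1) ∧
      (∀ l, i + 1 ≤ l → z l = 0) ∧
      (∀ l, ∀ j ∈ (z l).support, j ∈ N ∧ v ≤ j) ∧
      (∀ l l', l ≠ l' → Disjoint (z l).support (z l').support) ∧
      (range (i + 1)).biUnion (fun l => (z l).support) ∈ Sch (n + 1) ∧
      ∀ l, ∀ F ∈ Sch n, ∑ j ∈ F, z l j ≤ (1 / 2) ^ (i + 1) / (v + 1) := fun i v =>
    hJ n N hN ((1 / 2) ^ (i + 1) / (v + 1)) (by positivity) (i + 1) v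
  choose zz h1 h2 h3 h4 h5 h6 h7 using hJ'
  obtain ⟨vs, hvs⟩ : ∃ vs : ℕ → ℕ, ∀ i, vs (i + 1) = vs i +
      ((range (i + 1)).biUnion fun l => (zz i (vs i) l).support).sup id + 1 :=
    ⟨fun i => Nat.rec 0
      (fun i v => v + ((range (i + 1)).biUnion fun l => (zz i v l).support).sup id + 1) i, fun i => rfl⟩
  have hmono : ∀ i, vs i < vs (i + 1) := fun i => by rw [hvs]; omega
  have hsm : StrictMono vs := strictMono_nat_of_lt_succ hmono
  have hup : ∀ i l, ∀ j ∈ (zz i (vs i) l).support, j < vs (i + 1) := by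
    intro i l j hj
    rw [hvs]
    have hl : l < i + 1 := by
      by_contra hcon
      rw [h3 i (vs i) l (by omega)] at hj
      simp at hj
    have : j ≤ ((range (i + 1)).biUnion fun l => (zz i (vs i) l).support).sup id :=
      le_sup (f := id) (mem_biUnion.2 ⟨l, mem_range.2 hl, hj⟩)
    omega
  have hlo : ∀ i l, ∀ j ∈ (zz i (vs i) l).support, vs i ≤ j := fun i l j hj => (h4 i (vs i) l j hj).2
  refine ⟨fun i => zz i (vs i), ?_⟩
  refine ⟨fun i => h1 i (vs i), fun i l hl => h2 i (vs i) l (by omega), fun i l hl => h3 i (vs i) l (by omega),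
    fun i l j hj => (h4 i (vs i) l j hj).1, ?_, fun i => h6 i (vs i), ?_⟩
  · intro i l i' l' hne
    rcases lt_trichotomy i i' with h | h | h
    · rw [disjoint_left]
      intro j hj hj'
      have a1 := hup i l j hj
      have a2 := hlo i' l' j hj'
      have a3 : vs (i + 1) ≤ vs i' := hsm.monotone h
      omega
    · subst h
      exact h5 i (vs i) l l' (fun e => hne (by rw [e]))
    · rw [disjoint_left]
      intro j hj hj'
      have a1 := hup i' l' j hj'
      have a2 := hlo i l j hj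
      have a3 : vs (i' + 1) ≤ vs i := hsm.monotone h
      omega
  · intro F hF I s
    rcases F.eq_empty_or_nonempty with rfl | hne
    · simp
    set m := F.min' hne with hm
    have hmF : m ∈ F := F.min'_mem hne
    have hmin : ∀ j ∈ F, m ≤ j := fun j hj => F.min'_le j hj
    have hex : ∃ i, m < vs (i + 1) := ⟨m, by
      have := hsm.le_apply (x := m + 1)
      omega⟩
    classical
    set i0 := Nat.find hex with hi0
    have hi1 : m < vs (i0 + 1) := Nat.find_spec hex
    have hi2 : ∀ i < i0, vs (i + 1) ≤ m := fun i hi => not_lt.1 (Nat.find_min hex hi)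
    have hterm : ∀ i ∈ I, ∑ j ∈ F, zz i (vs i) (s i) j ≤ (if i = i0 then 1 else 0) + (1 / 2 : ℝ) ^ (i + 1) := by
      intro i _
      have hp : (0 : ℝ) < (1 / 2) ^ (i + 1) := by positivity
      rcases lt_trichotomy i i0 with h | h | h
      · rw [if_neg h.ne, sum_eq_zero]
        · linarith
        · intro j hj
          by_contra hcon
          have a1 := hup i (s i) j (Finsupp.mem_support_iff.2 hcon)
          have a2 := hi2 i h
          have a3 := hmin j hj
          omega
      · rw [if_pos h]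
        have : ∑ j ∈ F, zz i (vs i) (s i) j ≤ 1 := by
          rcases le_or_gt (i + 1) (s i) with hs | hs
          · rw [h3 i (vs i) (s i) hs]
            simp
          · rw [← h2 i (vs i) (s i) hs]
            calc ∑ j ∈ F, zz i (vs i) (s i) j
                = ∑ j ∈ F.filter (fun j => j ∈ (zz i (vs i) (s i)).support), zz i (vs i) (s i) j := by
                  rw [sum_filter]
                  apply sum_congr rfl
                  intro j _
                  split_ifs with hj
                  · rfl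
                  · exact Finsupp.notMem_support_iff.1 hj
              _ ≤ ∑ j ∈ (zz i (vs i) (s i)).support, zz i (vs i) (s i) j :=
                  sum_le_sum_of_subset_of_nonneg (fun j hj => (mem_filter.1 hj).2)
                    fun j _ _ => h1 i (vs i) (s i) j
        linarith
      · rw [if_neg h.ne', zero_add]
        have hv : vs (i0 + 1) ≤ vs i := hsm.monotone h
        have hmv : ((m : ℝ) + 1) ≤ (Nat.cast (vs i) : ℝ) + 1 := by
          have h10 : m ≤ vs i := by omega
          have h11 : (m : ℝ) ≤ ((vs i : ℕ) : ℝ) := Nat.cast_le.2 h10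
          linarith
        have hv0 : (0 : ℝ) < ((vs i : ℕ) : ℝ) + 1 := by positivity
        calc ∑ j ∈ F, zz i (vs i) (s i) j ≤ (m + 1) * ((1 / 2) ^ (i + 1) / (((vs i : ℕ) : ℝ) + 1)) :=
              sum_sch (h7 i (vs i) (s i)) hF (by positivity) hmF
          _ ≤ (((vs i : ℕ) : ℝ) + 1) * ((1 / 2) ^ (i + 1) / (((vs i : ℕ) : ℝ) + 1)) :=
              mul_le_mul_of_nonneg_right hmv (by positivity)
          _ = (1 / 2) ^ (i + 1) := by field_simp
    calc ∑ i ∈ I, ∑ j ∈ F, zz i (vs i) (s i) j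
        ≤ ∑ i ∈ I, ((if i = i0 then 1 else 0) + (1 / 2 : ℝ) ^ (i + 1)) := sum_le_sum hterm
      _ = ∑ i ∈ I, (if i = i0 then (1 : ℝ) else 0) + ∑ i ∈ I, (1 / 2 : ℝ) ^ (i + 1) := sum_add_distrib
      _ ≤ 1 + 1 := by
          apply add_le_add _ (half_sum I)
          rw [sum_ite_eq' I i0 (fun _ => (1 : ℝ))]
          split_ifs <;> norm_num
      _ = 2 := by norm_num

end Pool.Agent.X176.SP
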